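import Mathlib

namespace Pool.Agent.Results.MP_be9f3f_co.Cayley
open Equiv

variable {V W : Type}

/-- The reflexive edge relation: every vertex carries a loop. -/
def E (G : SimpleGraph V) (a b : V) : Prop := a = b ∨ G.Adj a b

/-- `S` is not the union of two nonempty parts with no edge between them. -/
def Conn (G : SimpleGraph V) (S : Set V) : Prop :=
  ¬ ∃ P Q : Set V, P.Nonempty ∧ Q.Nonempty ∧ P ∪ Q = S ∧ ∀ a ∈ P, ∀ b ∈ Q, ¬ E G a b

def Epi (G : SimpleGraph V) (H : SimpleGraph W) (f : V → W) : Prop :=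
  (∀ a b, E G a b → E H (f a) (f b)) ∧ f.Surjective ∧
    ∀ x y, E H x y → ∃ a b, E G a b ∧ f a = x ∧ f b = y

def Confluent (G : SimpleGraph V) (H : SimpleGraph W) (f : V → W) : Prop :=
  ∀ Q, Conn H Q → ∀ C, Maximal (fun C => C ⊆ f ⁻¹' Q ∧ Conn G C) C → f '' C = Q

def Homogeneous (G : SimpleGraph V) : Prop := ∀ x y, ∃ φ : G ≃g G, φ x = y

theorem E.symm {G : SimpleGraph V} {a b : V} (h : E G a b) : E G b a := h.imp Eq.symm .symm

theorem Conn.ind {G : SimpleGraph V} {S : Set V} (h : Conn G S) (P : V → Prop) {a : V} (ha : a ∈ S)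
    (h0 : P a) (hs : ∀ x ∈ S, ∀ y ∈ S, G.Adj x y → P x → P y) : ∀ b ∈ S, P b := fun b hb => by
  by_contra hn
  refine h ⟨{x ∈ S | P x}, {x ∈ S | ¬ P x}, ⟨a, ha, h0⟩, ⟨b, hb, hn⟩, by ext x; simp; tauto, ?_⟩
  rintro x hx y hy (rfl | h)
  · exact hy.2 hx.2
  · exact hy.2 (hs x hx.1 y hy.1 h hx.2)

theorem Conn.insert {G : SimpleGraph V} {S : Set V} (h : Conn G S) {a b : V} (ha : a ∈ S)
    (hab : E G a b) : Conn G (insert b S) := by
  have key : ∀ P Q : Set V, Q.Nonempty → P ∪ Q = Insert.insert b S →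
      (∀ a ∈ P, ∀ b ∈ Q, ¬ E G a b) → a ∈ P → False := by
    rintro P Q ⟨q, hq⟩ e hn haP
    have h1 := h.ind (· ∈ P) ha haP fun x _ y hy hxy hx =>
      ((e.ge (.inr hy))).resolve_right fun hq => hn x hx y hq (.inr hxy)
    rcases e.le (.inr hq) with rfl | h2
    · exact hn a haP q hq hab
    · exact hn q (h1 q h2) q hq (.inl rfl)
  rintro ⟨P, Q, hP, hQ, e, hn⟩
  rcases e.ge (.inr ha) with h1 | h1
  · exact key P Q hQ e hn h1
  · exact key Q P hP (by rw [Set.union_comm, e]) (fun x hx y hy h => hn y hy x hx h.symm) h1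

theorem result (W : Type) [Finite W] [Nonempty W] (H : SimpleGraph W) (hH : Conn H Set.univ) :
    ∃ (V : Type) (_ : Finite V) (G : SimpleGraph V) (f : V → W),
      Conn G Set.univ ∧ Homogeneous G ∧ Epi G H f ∧ Confluent G H f := by
  classical
  let Γ := Subgroup.closure {s : Perm W | ∃ x y, H.Adj x y ∧ s = swap x y}
  let G : SimpleGraph Γ :=
    { Adj := fun g h => ∃ x y, H.Adj x y ∧ h.1 = swap x y * g.1
      symm := ⟨fun g h ⟨x, y, a, e⟩ => ⟨x, y, a, by rw [e, swap_mul_self_mul]⟩⟩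
      loopless := ⟨fun g ⟨x, y, a, e⟩ => a.ne (swap_eq_one_iff.1 (right_eq_mul.1 e))⟩ }
  obtain ⟨v⟩ := ‹Nonempty W›
  have lift : ∀ (g : Γ) y, E H (g.1 v) y → ∃ h, E G g h ∧ h.1 v = y := by
    rintro g y (h | h)
    · exact ⟨g, .inl rfl, h⟩
    · exact ⟨⟨_, Subgroup.subset_closure ⟨_, _, h, rfl⟩⟩ * g, .inr ⟨_, _, h, rfl⟩, by simp⟩
  have sur : Function.Surjective fun g : Γ => g.1 v := fun y =>
    hH.ind (fun y => ∃ g : Γ, g.1 v = y) trivial ⟨1, rfl⟩ (by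
      rintro _ - y - h ⟨g, rfl⟩
      exact (lift g y (.inr h)).imp fun _ h => h.2) y trivial
  refine ⟨Γ, inferInstance, G, fun g => g.1 v, ?_, fun g h => ⟨⟨Equiv.mulRight (g⁻¹ * h), ?_⟩,
    by simp⟩, ⟨?_, sur, fun x y h => ?_⟩, fun Q hQ C hC => ?_⟩
  · have key : ∀ P Q : Set Γ, Q.Nonempty → P ∪ Q = Set.univ →
        (∀ a ∈ P, ∀ b ∈ Q, ¬ E G a b) → 1 ∈ P → False := by
      rintro P Q ⟨⟨q, hq⟩, h⟩ e hn h1
      refine hn _ ?_ _ h (.inl rfl)
      clear h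
      induction hq using Subgroup.closure_induction_left with
      | one => exact h1
      | mul_left s hs g hg ih =>
        obtain ⟨x, y, a, rfl⟩ := hs
        exact (e.ge trivial).resolve_right fun h => hn _ ih _ h (.inr ⟨x, y, a, rfl⟩)
      | inv_mul_cancel s hs g hg ih =>
        obtain ⟨x, y, a, rfl⟩ := hs
        exact (e.ge trivial).resolve_right fun h => hn _ ih _ h (.inr ⟨x, y, a, rfl⟩)
    rintro ⟨P, Q, hP, hQ, e, hn⟩
    rcases e.ge (Set.mem_univ 1) with h1 | h1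
    · exact key P Q hQ e hn h1
    · exact key Q P hP (by rw [Set.union_comm, e]) (fun x hx y hy h => hn y hy x hx h.symm) h1
  · intro a b
    simp [G, ← mul_assoc]
  · rintro g h (rfl | ⟨x, y, a, e⟩)
    · exact .inl rfl
    · simp only [e, Perm.mul_apply, swap_apply_def]
      split_ifs with h1 h2
      · exact .inr (h1 ▸ a)
      · exact .inr (h2 ▸ a.symm)
      · exact .inl rfl
  · obtain ⟨g, rfl⟩ := sur x
    obtain ⟨h, h1, h2⟩ := lift g y h
    exact ⟨g, h, h1, rfl, h2⟩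
  · refine (Set.image_subset_iff.2 hC.1.1).antisymm ?_
    rcases Q.eq_empty_or_nonempty with rfl | hne
    · exact Set.empty_subset _
    obtain ⟨c, hc⟩ : C.Nonempty := by
      obtain ⟨y, hy⟩ := hne
      obtain ⟨g, rfl⟩ := sur y
      by_contra h0
      rw [Set.not_nonempty_iff_eq_empty.1 h0] at hC
      refine hC.2 (y := {g}) ⟨Set.singleton_subset_iff.2 hy, ?_⟩ (Set.empty_subset _) rfl
      rintro ⟨P, Q, ⟨p, hp⟩, ⟨q, hq⟩, e, hn⟩
      exact hn p hp q hq (.inl ((e.le (.inl hp)).trans (e.le (.inr hq)).symm))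
    refine hQ.ind (· ∈ _) (hC.1.1 hc) ⟨c, hc, rfl⟩ ?_
    rintro _ - y hy h ⟨g, hg, rfl⟩
    obtain ⟨k, h1, rfl⟩ := lift g y (.inr h)
    exact ⟨k, hC.2 ⟨Set.insert_subset hy hC.1.1, hC.1.2.insert hg h1⟩ (Set.subset_insert _ _)
      (Set.mem_insert _ _), rfl⟩

end Pool.Agent.Results.MP_be9f3f_co.Cayley
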